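import Pool.Agent.P8H59.GI.Main

/-!
# An isomorphism game algebra with no unital `*`-homomorphism to a group C*-algebra

The graphs `G(M, b)` and `G(M, 0)` of the Mermin-Peres magic square `M x = b` are quantum isomorphic, so
`𝒜(G(M, b), G(M, 0)) ≠ 0`, but not isomorphic, so this algebra has no characters. The full group
C*-algebra of a group has a character. Hence there is no unital `*`-homomorphism (injective or not) from
`𝒜(G(M, b), G(M, 0))` to `C*(Γ)` for any group `Γ`, in particular for any solution group.
-/

set_option autoImplicit false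

namespace Pool.Agent.Results.MP_3b70de_al.NoMapToGroupAlgebra

open Pool.Agent.P8H59.GI

/-- There are finite graphs `G`, `H` with `𝒜(G, H) ≠ 0` such that for no binary linear system `M x = b`
there is a unital `*`-homomorphism `𝒜(G, H) → C*(Γ(M, b))`; in particular `𝒜(G, H)` does not embed into
`C*(Γ(M, b))`. (The algebras are given by their universal properties; they exist.) -/
theorem result :
    ∃ (V : Type) (_ : Fintype V) (G H : SimpleGraph V),
      (∃ (A : Type) (_ : CStarAlgebra A) (p : V → V → A), IsGameAlgebra G H A p) ∧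
      ∀ (A : Type) [CStarAlgebra A] (p : V → V → A), IsGameAlgebra G H A p →
        Nontrivial A ∧
        ∀ (m n : ℕ) (M : Matrix (Fin m) (Fin n) (ZMod 2)) (b : Fin m → ZMod 2),
          (∃ (C : Type) (_ : CStarAlgebra C) (u : SolutionGroup M b →* unitary C),
            IsGroupCStar (SolutionGroup M b) C u) ∧
          ∀ (C : Type) [CStarAlgebra C] (u : SolutionGroup M b →* unitary C),
            IsGroupCStar (SolutionGroup M b) C u → IsEmpty (A →⋆ₐ[ℂ] C) := by
  refine ⟨Fin 6 × Bool × Bool, inferInstance, LG par, LG fun _ => false,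
    magic_exists, ?_⟩
  intro A _ p hp
  refine ⟨magic_nontrivial p hp, ?_⟩
  intro m n M b
  refine ⟨exists_groupCStar _, ?_⟩
  intro C _ u hu
  refine ⟨fun φ => ?_⟩
  obtain ⟨χ⟩ := groupCStar_char _ C u hu
  obtain ⟨e⟩ := iso_of_char (LG par) (LG fun _ => false)
    (isoRel_map (LG par) (LG fun _ => false) (χ.comp φ) p hp.rel)
  exact not_iso.false e

end Pool.Agent.Results.MP_3b70de_al.NoMapToGroupAlgebra
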